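import Mathlib
import Pool.Agent.Helper598.CofactorD

set_option autoImplicit false
set_option linter.unusedSectionVars false

namespace Pool.Agent.Results.MP_88774e_co.GenericRigidity

open Pool.Agent.Helper598.Cofactor (cofM rank_add_ker)
open Pool.Agent.Helper598.CofactorC (rank_top_le rank_top_attained)
open Pool.Agent.Helper598.CofactorAB (ker_ge)

/-- the `k`-th entry `(x_i - x_j)^(s-k) (y_i - y_j)^k` of the vector `D_ij`, `0 ≤ k ≤ s` -/
def D {V : Type} (s : ℕ) (p : V → ℝ × ℝ) (i j : V) (k : Fin (s + 1)) : ℝ :=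
  ((p i).1 - (p j).1) ^ (s - (k : ℕ)) * ((p i).2 - (p j).2) ^ (k : ℕ)

open Classical in
/-- The cofactor matrix: a row for each ordered pair `(i, j)` of adjacent vertices, `s + 1` columns
for each vertex; the row of `(i, j)` is `D_ij` in the block of `i`, `-D_ij` in the block of `j`, and
zero elsewhere. -/
noncomputable def cofactorMatrix {V : Type} (s : ℕ) (G : SimpleGraph V) (p : V → ℝ × ℝ) :
    Matrix {e : V × V // G.Adj e.1 e.2} (V × Fin (s + 1)) ℝ :=
  fun e c =>
    if c.1 = e.1.1 then D s p e.1.1 e.1.2 c.2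
    else if c.1 = e.1.2 then -D s p e.1.1 e.1.2 c.2
    else 0

/-- the `2 |V|` coordinates of `p` are algebraically independent over `ℚ` -/
def IsGeneric {V : Type} (p : V → ℝ × ℝ) : Prop :=
  AlgebraicIndependent ℚ (Sum.elim (fun v => (p v).1) (fun v => (p v).2) : V ⊕ V → ℝ)

/-- `G` is generically `C_s^{s-1}`-rigid -/
def IsGenericallyRigid {V : Type} [Fintype V] (s : ℕ) (G : SimpleGraph V) : Prop :=
  ∀ p : V → ℝ × ℝ, IsGeneric p →
    (s + 1 ≤ Fintype.card V ∧
      ((cofactorMatrix s G p).rank : ℤ) =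
        ((s : ℤ) + 1) * (Fintype.card V : ℤ) - ((s + 2).choose 2 : ℤ)) ∨
    (Fintype.card V ≤ s ∧ G = ⊤)

lemma exists_algInd (ι : Type) [Fintype ι] : ∃ x : ι → ℝ, AlgebraicIndependent ℚ x := by
  obtain ⟨s, hs⟩ := exists_isTranscendenceBasis ℚ ℝ
  have hinf : s.Infinite := by
    intro hfin
    have hc : s.Countable := hfin.countable
    have halg : Algebra.IsAlgebraic (Algebra.adjoin ℚ (Set.range ((↑) : s → ℝ))) ℝ := hs.isAlgebraic
    have h1 := Algebra.IsAlgebraic.cardinalMk_le_max (Algebra.adjoin ℚ (Set.range ((↑) : s → ℝ))) ℝ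
    have h2 : Cardinal.mk (Algebra.adjoin ℚ (Set.range ((↑) : s → ℝ))) ≤ Cardinal.aleph0 := by
      refine (Algebra.cardinalMk_adjoin_le ℚ _).trans ?_
      simp only [Subtype.range_coe_subtype, Set.ofPred_mem_eq]
      simp [hc]
    have h3 : Cardinal.mk ℝ ≤ Cardinal.aleph0 := h1.trans (by simpa using h2)
    rw [Cardinal.mk_real] at h3
    exact absurd h3 (not_le.mpr Cardinal.aleph0_lt_continuum)
  have : Infinite s := hinf.to_subtype
  obtain ⟨f⟩ : Nonempty (ι ↪ s) := by
    have hι : Cardinal.mk ι ≤ Cardinal.mk s :=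
      (Cardinal.mk_le_aleph0 (α := ι)).trans (Cardinal.aleph0_le_mk s)
    exact (Cardinal.le_def ι s).mp hι
  exact ⟨fun i => (f i : ℝ), hs.1.comp f f.injective⟩

lemma exists_generic (V : Type) [Fintype V] : ∃ p : V → ℝ × ℝ, IsGeneric p := by
  obtain ⟨z, hz⟩ := exists_algInd (V ⊕ V)
  refine ⟨fun v => (z (Sum.inl v), z (Sum.inr v)), ?_⟩
  have : (Sum.elim (fun v => z (Sum.inl v)) (fun v => z (Sum.inr v)) : V ⊕ V → ℝ) = z := by
    funext v; rcases v with v | v <;> rfl
  unfold IsGeneric
  simpa [this] using hz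

/-- our matrix has the same rank as the one with zero rows for the non-edges -/
lemma rank_eq {V : Type} [Fintype V] (s : ℕ) (G : SimpleGraph V) (p : V → ℝ × ℝ) :
    (cofactorMatrix s G p).rank = (cofM s G (fun v => (p v).1) (fun v => (p v).2)).rank := by
  classical
  rw [Matrix.rank_eq_finrank_span_row, Matrix.rank_eq_finrank_span_row]
  have key : ∀ e : {e : V × V // G.Adj e.1 e.2}, (cofactorMatrix s G p).row e =
      (cofM s G (fun v => (p v).1) (fun v => (p v).2)).row e.1 := by
    intro e
    funext c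
    simp only [Matrix.row, cofM, Matrix.of_apply, cofactorMatrix, D, e.2, if_true]
  have hsp : Submodule.span ℝ (Set.range (cofactorMatrix s G p).row) =
      Submodule.span ℝ (Set.range (cofM s G (fun v => (p v).1) (fun v => (p v).2)).row) := by
    apply le_antisymm
    · rw [Submodule.span_le]
      rintro _ ⟨e, rfl⟩
      rw [key e]
      exact Submodule.subset_span ⟨e.1, rfl⟩
    · rw [Submodule.span_le]
      rintro _ ⟨e, rfl⟩
      by_cases he : G.Adj e.1 e.2
      · have := key ⟨e, he⟩
        rw [← this]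
        exact Submodule.subset_span ⟨⟨e, he⟩, rfl⟩
      · have : (cofM s G (fun v => (p v).1) (fun v => (p v).2)).row e = 0 := by
          funext c
          simp [Matrix.row, cofM, he]
        rw [this]
        exact Submodule.zero_mem _
  rw [hsp]

section gen

variable {V : Type} [Fintype V] (s : ℕ) (G : SimpleGraph V)

open Classical in
/-- the matrix over the polynomial ring -/
noncomputable def polM : Matrix (V × V) (V × Fin (s + 1)) (MvPolynomial (V ⊕ V) ℚ) :=
  Matrix.of fun (e : V × V) (c : V × Fin (s + 1)) =>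
    if G.Adj e.1 e.2 then
      (if c.1 = e.1 then
        (MvPolynomial.X (Sum.inl e.1) - MvPolynomial.X (Sum.inl e.2)) ^ (s - (c.2 : ℕ)) *
          (MvPolynomial.X (Sum.inr e.1) - MvPolynomial.X (Sum.inr e.2)) ^ (c.2 : ℕ)
       else if c.1 = e.2 then
        -((MvPolynomial.X (Sum.inl e.1) - MvPolynomial.X (Sum.inl e.2)) ^ (s - (c.2 : ℕ)) *
          (MvPolynomial.X (Sum.inr e.1) - MvPolynomial.X (Sum.inr e.2)) ^ (c.2 : ℕ))
       else 0)
    else 0

lemma polM_map (x y : V → ℝ) :
    (polM s G).map (MvPolynomial.aeval (Sum.elim x y) : MvPolynomial (V ⊕ V) ℚ →ₐ[ℚ] ℝ).toRingHom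
      = cofM s G x y := by
  classical
  ext e c
  simp only [polM, cofM, Matrix.map_apply, Matrix.of_apply, AlgHom.toRingHom_eq_coe,
    RingHom.coe_coe]
  split_ifs <;> simp

/-- the rank at a generic point is the maximal rank -/
lemma generic_max {x y : V → ℝ} (hxy : AlgebraicIndependent ℚ (Sum.elim x y : V ⊕ V → ℝ))
    (x' y' : V → ℝ) : (cofM s G x' y').rank ≤ (cofM s G x y).rank := by
  classical
  obtain ⟨κ, a, ha, hspan, hli⟩ := exists_linearIndependent' ℝ (cofM s G x' y').row
  have : Finite κ := Finite.of_injective a ha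
  have : Fintype κ := Fintype.ofFinite κ
  have hrank0 : (cofM s G x' y').rank = Fintype.card κ := by
    rw [Matrix.rank_eq_finrank_span_row, ← hspan]
    exact finrank_span_eq_card hli
  -- the Gram determinant
  let N : Matrix κ (V × Fin (s + 1)) (MvPolynomial (V ⊕ V) ℚ) := (polM s G).submatrix a id
  have hmap : ∀ u w : V → ℝ,
      (MvPolynomial.aeval (Sum.elim u w) : MvPolynomial (V ⊕ V) ℚ →ₐ[ℚ] ℝ).toRingHom
        ((N * N.transpose).det) =
      (((cofM s G u w).submatrix a id) * ((cofM s G u w).submatrix a id).transpose).det := by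
    intro u w
    rw [RingHom.map_det]
    congr 1
    rw [RingHom.mapMatrix_apply, Matrix.map_mul, ← polM_map s G u w]
    rfl
  have hne : (((cofM s G x' y').submatrix a id) *
      ((cofM s G x' y').submatrix a id).transpose).det ≠ 0 := by
    have hr : (((cofM s G x' y').submatrix a id) *
        ((cofM s G x' y').submatrix a id).transpose).rank = Fintype.card κ := by
      rw [Matrix.rank_self_mul_transpose]
      exact LinearIndependent.rank_matrix hli
    have h1 : LinearIndependent ℝ (((cofM s G x' y').submatrix a id) *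
        ((cofM s G x' y').submatrix a id).transpose).row := by
      rw [linearIndependent_iff_card_eq_finrank_span, Set.finrank,
        ← Matrix.rank_eq_finrank_span_row, hr]
    rw [Matrix.linearIndependent_rows_iff_isUnit, Matrix.isUnit_iff_isUnit_det] at h1
    exact h1.ne_zero
  have hP : (N * N.transpose).det ≠ 0 := by
    intro h0
    apply hne
    rw [← hmap x' y', h0, map_zero]
  have hne2 : (((cofM s G x y).submatrix a id) *
      ((cofM s G x y).submatrix a id).transpose).det ≠ 0 := by
    rw [← hmap x y]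
    intro h0
    apply hP
    have hinj : Function.Injective (MvPolynomial.aeval (Sum.elim x y) :
      MvPolynomial (V ⊕ V) ℚ →ₐ[ℚ] ℝ) := hxy
    apply hinj
    rw [map_zero]
    exact h0
  have h2 : (((cofM s G x y).submatrix a id) *
      ((cofM s G x y).submatrix a id).transpose).rank = Fintype.card κ :=
    Matrix.rank_of_isUnit _ ((Matrix.isUnit_iff_isUnit_det _).2 hne2.isUnit)
  rw [Matrix.rank_self_mul_transpose] at h2
  rw [hrank0, ← h2, Matrix.rank_eq_finrank_span_row, Matrix.rank_eq_finrank_span_row]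
  apply Submodule.finrank_mono
  apply Submodule.span_mono
  rintro _ ⟨i, rfl⟩
  exact ⟨a i, rfl⟩

lemma rank_le_top (x y : V → ℝ) : (cofM s G x y).rank ≤ (cofM s (⊤ : SimpleGraph V) x y).rank := by
  classical
  rw [Matrix.rank_eq_finrank_span_row, Matrix.rank_eq_finrank_span_row]
  apply Submodule.finrank_mono
  rw [Submodule.span_le]
  rintro _ ⟨e, rfl⟩
  by_cases he : G.Adj e.1 e.2
  · have : (cofM s G x y).row e = (cofM s (⊤ : SimpleGraph V) x y).row e := by
      funext c
      simp only [Matrix.row, cofM, Matrix.of_apply, he, if_true, SimpleGraph.top_adj, he.ne,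
        ne_eq, not_false_eq_true]
    rw [this]
    exact Submodule.subset_span ⟨e, rfl⟩
  · have : (cofM s G x y).row e = 0 := by
      funext c
      simp [Matrix.row, cofM, he]
    rw [this]
    exact Submodule.zero_mem _

end gen

/-- For all `s ≥ 1` and `m, n ≥ 2` with `m + n ≥ s + 1`, the complete bipartite graph `K_{m,n}` is
generically `C_s^{s-1}`-rigid if and only if `m n ≥ (s+1)(m+n) - binom(s+2,2)`. -/
theorem result : ∀ s m n : ℕ, 1 ≤ s → 2 ≤ m → 2 ≤ n → s + 1 ≤ m + n →
    (IsGenericallyRigid s (completeBipartiteGraph (Fin m) (Fin n)) ↔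
      ((s : ℤ) + 1) * ((m : ℤ) + (n : ℤ)) - ((s + 2).choose 2 : ℤ) ≤ (m : ℤ) * (n : ℤ)) := by
  intro s m n hs hm hn hmn
  have hcard : Fintype.card (Fin m ⊕ Fin n) = m + n := by simp
  constructor
  · intro h
    obtain ⟨p, hp⟩ := exists_generic (Fin m ⊕ Fin n)
    rcases h p hp with ⟨_, h2⟩ | ⟨h1, _⟩
    · have h3 := Pool.Agent.Helper598.CofactorD.bip_rank_le s m n (fun v => (p v).1)
        (fun v => (p v).2)
      rw [rank_eq, hcard] at h2
      have h4 : ((cofM s (completeBipartiteGraph (Fin m) (Fin n)) (fun v => (p v).1)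
        (fun v => (p v).2)).rank : ℤ) ≤ (m : ℤ) * (n : ℤ) := by exact_mod_cast h3
      rw [h2] at h4
      push_cast at h4
      exact h4
    · rw [hcard] at h1; omega
  · intro h p hp
    left
    refine ⟨by rw [hcard]; exact hmn, ?_⟩
    have hmn2 : s + 2 ≤ m + n := by
      by_contra hlt
      have he : m + n = s + 1 := by omega
      have hc := Pool.Agent.Helper598.CofactorD.two_choose s
      have hcz : (2 : ℤ) * ((s + 2).choose 2 : ℕ) = ((s : ℤ) + 2) * ((s : ℤ) + 1) := by
        exact_mod_cast hc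
      have hez : (s : ℤ) = m + n - 1 := by omega
      have hm' : (2 : ℤ) ≤ m := by exact_mod_cast hm
      have hn' : (2 : ℤ) ≤ n := by exact_mod_cast hn
      rw [hez] at h hcz
      nlinarith
    obtain ⟨x0, y0, h0⟩ := (Pool.Agent.Helper598.CofactorD.main s m n hs hm hn hmn2).2 h
    obtain ⟨x', y', h'⟩ := rank_top_attained (V := Fin m ⊕ Fin n) s
    have h1 := h0 x' y'
    have h2 := generic_max s (completeBipartiteGraph (Fin m) (Fin n)) hp x0 y0
    have h3 := rank_le_top s (completeBipartiteGraph (Fin m) (Fin n)) (fun v => (p v).1)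
      (fun v => (p v).2)
    have h4 := rank_top_le (V := Fin m ⊕ Fin n) s (fun v => (p v).1) (fun v => (p v).2)
      (by rw [hcard]; exact hmn)
    rw [rank_eq]
    have h5 : (cofM s (completeBipartiteGraph (Fin m) (Fin n)) (fun v => (p v).1)
        (fun v => (p v).2)).rank + (s + 2).choose 2 =
        (s + 1) * Fintype.card (Fin m ⊕ Fin n) := by omega
    have h6 : ((cofM s (completeBipartiteGraph (Fin m) (Fin n)) (fun v => (p v).1)
        (fun v => (p v).2)).rank : ℤ) + ((s + 2).choose 2 : ℕ) =
        ((s : ℤ) + 1) * (Fintype.card (Fin m ⊕ Fin n) : ℤ) := by exact_mod_cast h5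
    linarith

end Pool.Agent.Results.MP_88774e_co.GenericRigidity
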